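import Pool.Agent.W921.VP.DefsC

set_option autoImplicit false
set_option maxHeartbeats 4000000

/-!
Project VP, part AT: the case where every binary relation has finitely many classes of twins.
-/

namespace Pool.Agent.W756.VP.AT

open FirstOrder Set MeasureTheory
open Pool.Agent.W921.VP

section basics

variable {L : FirstOrder.Language.{0, 0}}

theorem code_str [L.IsRelational] (c : Code L) : code (str c) = c := by
  classical
  funext p
  obtain ⟨n, R, s⟩ := p
  have h : (str c).RelMap R s ↔ c ⟨n, R, s⟩ = true := Iff.rfl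
  unfold code
  rw [Bool.eq_iff_iff, decide_eq_true_iff]
  exact h

theorem str_code [L.IsRelational] (S : L.Structure ℕ) : str (code S) = S := by
  classical
  apply FirstOrder.Language.Structure.ext
  · funext n f
    exact isEmptyElim f
  · funext n R s
    change (code S ⟨n, R, s⟩ = true) = _
    unfold code
    exact propext (@decide_eq_true_iff _ _)

theorem sw_map {M N : Type} (e : M ≃ N) (x y z : M) : e (sw x y z) = sw (e x) (e y) (e z) := by
  unfold sw
  split_ifs <;> simp_all

theorem tw_iso {M N : Type} {S : L.Structure M} {S' : L.Structure N} (e : M ≃ N)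
    (he : ∀ (n : ℕ) (R : L.Relations n) (s : Fin n → M),
      S.RelMap R s ↔ S'.RelMap R (fun i => e (s i)))
    {n : ℕ} (R : L.Relations n) (x y : M) : Tw S R x y ↔ Tw S' R (e x) (e y) := by
  constructor
  · intro h s
    have := h (fun i => e.symm (s i))
    rw [he, he] at this
    simpa [sw_map] using this
  · intro h s
    rw [he, he]
    have := h (fun i => e (s i))
    simpa [sw_map] using this

theorem twA_iso {M N : Type} {S : L.Structure M} {S' : L.Structure N} (e : M ≃ N)
    (he : ∀ (n : ℕ) (R : L.Relations n) (s : Fin n → M),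
      S.RelMap R s ↔ S'.RelMap R (fun i => e (s i)))
    (x y : M) : TwA S x y ↔ TwA S' (e x) (e y) :=
  forall_congr' fun R => tw_iso e he R.2 x y

theorem encard_iso {M N : Type} {S : L.Structure M} {S' : L.Structure N} (e : M ≃ N)
    (he : ∀ (n : ℕ) (R : L.Relations n) (s : Fin n → M),
      S.RelMap R s ↔ S'.RelMap R (fun i => e (s i)))
    (x : M) : Set.encard {y | TwA S y x} = Set.encard {y | TwA S' y (e x)} := by
  have h1 : {y | TwA S' y (e x)} = e '' {y | TwA S y x} := by
    ext y
    simp only [mem_ofPred_eq, mem_image]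
    constructor
    · intro h
      refine ⟨e.symm y, ?_, by simp⟩
      rw [twA_iso e he]
      simpa using h
    · rintro ⟨z, hz, rfl⟩
      exact (twA_iso e he z x).1 hz
  rw [h1, e.injective.encard_image]

theorem twA_equiv (h7 : S_SW) {M : Type} (S : L.Structure M) : Equivalence (TwA S) := by
  refine ⟨fun x R => (h7 L M S R.1 R.2).1.refl x, fun h R => (h7 L M S R.1 R.2).1.symm (h R),
    fun h h' R => (h7 L M S R.1 R.2).1.trans (h R) (h' R)⟩

/-- Representatives of the non-isolated classes. -/
theorem reps (h7 : S_SW) (S : L.Structure ℕ)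
    (h : ¬ ∃ x : ℕ → ℕ, (∀ i, NonIso S (x i)) ∧ ∀ i j, i ≠ j → ¬ TwA S (x i) (x j)) :
    ∃ (n : ℕ) (a : Fin n → ℕ), (∀ i j, i ≠ j → ¬ TwA S (a i) (a j)) ∧
      ∀ x, NonIso S x → ∃ i, TwA S x (a i) := by
  classical
  have heq := twA_equiv h7 S
  let st : Setoid {x : ℕ // NonIso S x} := ⟨fun x y => TwA S x.1 y.1, ⟨fun x => heq.refl _,
    fun h => heq.symm h, fun h h' => heq.trans h h'⟩⟩
  rcases finite_or_infinite (Quotient st) with hf | hi
  · obtain ⟨n, ⟨f⟩⟩ := Finite.exists_equiv_fin (Quotient st)
    refine ⟨n, fun i => ((f.symm i).out).1, ?_, ?_⟩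
    · intro i j hij hT
      apply hij
      apply f.symm.injective
      have h1 : st ((f.symm i).out) ((f.symm j).out) := hT
      have h2 := Quotient.sound h1
      rwa [Quotient.out_eq, Quotient.out_eq] at h2
    · intro x hx
      refine ⟨f (Quotient.mk st ⟨x, hx⟩), ?_⟩
      have h1 : st (Quotient.out (f.symm (f (Quotient.mk st ⟨x, hx⟩)))) ⟨x, hx⟩ := by
        rw [Equiv.symm_apply_apply]
        exact Quotient.mk_out _
      exact heq.symm h1
  · exfalso
    apply h
    let f := Infinite.natEmbedding (Quotient st)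
    refine ⟨fun i => ((f i).out).1, fun i => (f i).out.2, ?_⟩
    intro i j hij hT
    apply hij
    apply f.injective
    have h1 : st ((f i).out) ((f j).out) := hT
    have h2 := Quotient.sound h1
    rwa [Quotient.out_eq, Quotient.out_eq] at h2

end basics

section meas

variable {L : FirstOrder.Language.{0, 0}}

theorem countable_sym (hc : Countable L.Symbols) : Countable (Sym L) := by
  have : Function.Injective (fun R : Sym L => (Sum.inr R : L.Symbols)) := Sum.inr_injective
  exact this.countable

theorem countable_rel (hc : Countable L.Symbols) (n : ℕ) : Countable (L.Relations n) := by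
  have := countable_sym hc
  have : Function.Injective (fun R : L.Relations n => (⟨n, R⟩ : Sym L)) := sigma_mk_injective
  exact this.countable

theorem countable_index (hc : Countable L.Symbols) :
    Countable (Σ n, L.Relations n × (Fin n → ℕ)) := by
  have := fun n => countable_rel hc n
  infer_instance

variable [L.IsRelational]

theorem meas_rel {n : ℕ} (R : L.Relations n) (s : Fin n → ℕ) :
    MeasurableSet {c : Code L | (str c).RelMap R s} := by
  have h1 : Measurable (fun c : Code L => c ⟨n, R, s⟩) := measurable_pi_apply _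
  exact h1 (measurableSet_singleton true)

theorem meas_iff {α : Type} [MeasurableSpace α] {p q : α → Prop}
    (hp : MeasurableSet {x | p x}) (hq : MeasurableSet {x | q x}) :
    MeasurableSet {x | p x ↔ q x} := by
  have : {x | p x ↔ q x} = ({x | p x} ∩ {x | q x}) ∪ ({x | p x}ᶜ ∩ {x | q x}ᶜ) := by
    ext x
    simp only [mem_ofPred_eq, mem_union, mem_inter_iff, mem_compl_iff]
    tauto
  rw [this]
  exact (hp.inter hq).union (hp.compl.inter hq.compl)

theorem meas_tw {n : ℕ} (R : L.Relations n) (x y : ℕ) :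
    MeasurableSet {c : Code L | Tw (str c) R x y} := by
  have : {c : Code L | Tw (str c) R x y} = ⋂ s : Fin n → ℕ,
      {c : Code L | (str c).RelMap R (fun i => sw x y (s i)) ↔ (str c).RelMap R s} := by
    ext c
    simp [Tw]
  rw [this]
  exact MeasurableSet.iInter fun s => meas_iff (meas_rel R _) (meas_rel R _)

theorem meas_twF (F : Finset (Sym L)) (x y : ℕ) :
    MeasurableSet {c : Code L | TwF (str c) F x y} := by
  have : {c : Code L | TwF (str c) F x y} = ⋂ R ∈ F, {c : Code L | Tw (str c) R.2 x y} := by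
    ext c
    simp [TwF]
  rw [this]
  exact Finset.measurableSet_biInter F fun R _ => meas_tw R.2 x y

theorem meas_twA (hc : Countable L.Symbols) (x y : ℕ) :
    MeasurableSet {c : Code L | TwA (str c) x y} := by
  have := countable_sym hc
  have : {c : Code L | TwA (str c) x y} = ⋂ R : Sym L, {c : Code L | Tw (str c) R.2 x y} := by
    ext c
    simp [TwA]
  rw [this]
  exact MeasurableSet.iInter fun R => meas_tw R.2 x y

theorem meas_nonIso (hc : Countable L.Symbols) (x : ℕ) :
    MeasurableSet {c : Code L | NonIso (str c) x} := by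
  have := countable_sym hc
  have : {c : Code L | NonIso (str c) x} = ⋂ F : Finset (Sym L), ⋃ y : ℕ,
      ({c : Code L | TwF (str c) F x y} ∩ {c : Code L | TwA (str c) x y}ᶜ) := by
    ext c
    simp [NonIso]
  rw [this]
  exact MeasurableSet.iInter fun F => MeasurableSet.iUnion fun y =>
    (meas_twF F x y).inter (meas_twA hc x y).compl

theorem le_encard_iff {α : Type} (A : Set α) (l : ℕ) :
    (l : ℕ∞) ≤ A.encard ↔ ∃ f : Fin l → α, Function.Injective f ∧ ∀ j, f j ∈ A := by
  constructor
  · intro h
    obtain ⟨B, hBA, hB⟩ := Set.exists_subset_encard_eq h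
    have hfin : B.Finite := Set.finite_of_encard_eq_coe hB
    have hcard : B.ncard = l := by
      rw [Set.ncard_def, hB]
      rfl
    have := hfin.to_subtype
    let e := Finite.equivFinOfCardEq (α := B) (n := l) (by
      rw [Nat.card_coe_set_eq]
      exact hcard)
    exact ⟨fun j => (e.symm j).1, Subtype.val_injective.comp e.symm.injective,
      fun j => hBA (e.symm j).2⟩
  · rintro ⟨f, hf, hA⟩
    have h1 : (Set.range f).encard = l := by
      rw [← Set.image_univ, hf.encard_image, Set.encard_univ]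
      simp
    rw [← h1]
    apply Set.encard_le_encard
    rintro _ ⟨j, rfl⟩
    exact hA j

theorem meas_size (hc : Countable L.Symbols) (x l : ℕ) :
    MeasurableSet {c : Code L | (l : ℕ∞) ≤ Set.encard {y | TwA (str c) y x}} := by
  have : {c : Code L | (l : ℕ∞) ≤ Set.encard {y | TwA (str c) y x}} =
      ⋃ f : Fin l → ℕ, ⋃ _ : Function.Injective f, ⋂ j, {c : Code L | TwA (str c) (f j) x} := by
    ext c
    simp only [mem_ofPred_eq, le_encard_iff, mem_iUnion, mem_iInter, exists_prop]
  rw [this]
  exact MeasurableSet.iUnion fun f => MeasurableSet.iUnion fun _ => MeasurableSet.iInter fun j =>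
    meas_twA hc _ _

omit [L.IsRelational] in
theorem meas_slices {n : ℕ} (P : Code L → (Fin n → ℕ) → Prop)
    (h : ∀ a, MeasurableSet {c | P c a}) :
    MeasurableSet {p : Code L × (Fin n → ℕ) | P p.1 p.2} := by
  have : {p : Code L × (Fin n → ℕ) | P p.1 p.2} = ⋃ a : Fin n → ℕ,
      ((Prod.fst ⁻¹' {c | P c a}) ∩ (Prod.snd ⁻¹' {a})) := by
    ext p
    simp only [mem_ofPred_eq, mem_iUnion, mem_inter_iff, mem_preimage, mem_singleton_iff]
    constructor
    · intro hp
      exact ⟨p.2, hp, rfl⟩
    · rintro ⟨a, h1, h2⟩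
      rw [h2]
      exact h1
  rw [this]
  exact MeasurableSet.iUnion fun a => (measurable_fst (h a)).inter
    (measurable_snd (measurableSet_singleton a))

end meas

section main

variable {L : FirstOrder.Language.{0, 0}} [L.IsRelational]

/-- Models with representatives of the non-isolated classes. -/
def B (T : L.Theory) (n : ℕ) : Set (Code L × (Fin n → ℕ)) :=
  {p | Mods (str p.1) T ∧ (∀ i j, i ≠ j → ¬ TwA (str p.1) (p.2 i) (p.2 j)) ∧
    ∀ x, NonIso (str p.1) x → ∃ i, TwA (str p.1) x (p.2 i)}

theorem measB (h6 : S_MEA) (hc : Countable L.Symbols) (T : L.Theory) (n : ℕ) :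
    MeasurableSet (B T n) := by
  apply meas_slices (fun (c : Code L) (a : Fin n → ℕ) => Mods (str c) T ∧
    (∀ i j, i ≠ j → ¬ TwA (str c) (a i) (a j)) ∧
    ∀ x, NonIso (str c) x → ∃ i, TwA (str c) x (a i))
  intro a
  have h1 : MeasurableSet {c : Code L | Mods (str c) T} := h6 L hc T
  have h2 : MeasurableSet {c : Code L | ∀ i j, i ≠ j → ¬ TwA (str c) (a i) (a j)} := by
    have : {c : Code L | ∀ i j, i ≠ j → ¬ TwA (str c) (a i) (a j)} =
        ⋂ i, ⋂ j, ⋂ _ : i ≠ j, {c : Code L | TwA (str c) (a i) (a j)}ᶜ := by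
      ext c
      simp
    rw [this]
    exact MeasurableSet.iInter fun i => MeasurableSet.iInter fun j => MeasurableSet.iInter fun _ =>
      (meas_twA hc _ _).compl
  have h3 : MeasurableSet {c : Code L | ∀ x, NonIso (str c) x → ∃ i, TwA (str c) x (a i)} := by
    have : {c : Code L | ∀ x, NonIso (str c) x → ∃ i, TwA (str c) x (a i)} =
        ⋂ x : ℕ, ({c : Code L | NonIso (str c) x}ᶜ ∪ ⋃ i, {c : Code L | TwA (str c) x (a i)}) := by
      ext c
      simp only [mem_ofPred_eq, mem_iInter, mem_union, mem_compl_iff, mem_iUnion]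
      refine forall_congr' fun x => ?_
      tauto
    rw [this]
    exact MeasurableSet.iInter fun x => (meas_nonIso hc x).compl.union
      (MeasurableSet.iUnion fun i => meas_twA hc _ _)
  exact h1.inter (h2.inter h3)

open Classical in
/-- The invariant together with the sizes of the classes. -/
noncomputable def th {n : ℕ} (θ : Code L × (Fin n → ℕ) → (ℕ → Bool))
    (g : ℕ → ℕ ⊕ (Fin n × ℕ)) (p : Code L × (Fin n → ℕ)) (k : ℕ) : Bool :=
  (g k).elim (fun j => θ p j) (fun q => decide ((q.2 : ℕ∞) ≤
    Set.encard {y | TwA (str p.1) y (p.2 q.1)}))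

theorem meas_th (hc : Countable L.Symbols) {n : ℕ} (θ : Code L × (Fin n → ℕ) → (ℕ → Bool))
    (hθ : Measurable θ) (g : ℕ → ℕ ⊕ (Fin n × ℕ)) : Measurable (th θ g) := by
  classical
  rw [measurable_pi_iff]
  intro k
  unfold th
  rcases g k with j | q
  · simp only [Sum.elim_inl]
    exact (measurable_pi_apply j).comp hθ
  · simp only [Sum.elim_inr]
    apply measurable_to_bool
    have : (fun p : Code L × (Fin n → ℕ) => decide ((q.2 : ℕ∞) ≤
        Set.encard {y | TwA (str p.1) y (p.2 q.1)})) ⁻¹' {true} =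
        {p : Code L × (Fin n → ℕ) | (q.2 : ℕ∞) ≤ Set.encard {y | TwA (str p.1) y (p.2 q.1)}} := by
      ext p
      simp
    rw [this]
    exact meas_slices (fun (c : Code L) (a : Fin n → ℕ) => (q.2 : ℕ∞) ≤
      Set.encard {y | TwA (str c) y (a q.1)}) fun a => meas_size hc _ _

theorem th_eq {n : ℕ} {θ : Code L × (Fin n → ℕ) → (ℕ → Bool)}
    {g : ℕ → ℕ ⊕ (Fin n × ℕ)} (hg : Function.Surjective g) {p p' : Code L × (Fin n → ℕ)}
    (h : th θ g p = th θ g p') : θ p = θ p' ∧ ∀ i, Set.encard {y | TwA (str p.1) y (p.2 i)} =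
      Set.encard {y | TwA (str p'.1) y (p'.2 i)} := by
  constructor
  · funext j
    obtain ⟨k, hk⟩ := hg (Sum.inl j)
    have := congrFun h k
    simpa [th, hk] using this
  · intro i
    apply ENat.eq_of_forall_natCast_le_iff
    intro l
    obtain ⟨k, hk⟩ := hg (Sum.inr (i, l))
    have := congrFun h k
    simpa [th, hk] using this

theorem th_inv {n : ℕ} {θ : Code L × (Fin n → ℕ) → (ℕ → Bool)} (g : ℕ → ℕ ⊕ (Fin n × ℕ))
    (hθ : ∀ (S S' : L.Structure ℕ) (a a' : Fin n → ℕ) (e : ℕ ≃ ℕ), (∀ F, FIso S S' F e) →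
        (∀ i, e (a i) = a' i) → θ (code S, a) = θ (code S', a'))
    (c c' : Code L) (a : Fin n → ℕ) (e : ℕ ≃ ℕ)
    (he : ∀ (n : ℕ) (R : L.Relations n) (s : Fin n → ℕ),
      (str c).RelMap R s ↔ (str c').RelMap R (fun i => e (s i))) :
    th θ g (c, a) = th θ g (c', fun i => e (a i)) := by
  have h1 : θ (c, a) = θ (c', fun i => e (a i)) := by
    have := hθ (str c) (str c') a (fun i => e (a i)) e (fun F R _ s => he R.1 R.2 s)
      (fun i => rfl)
    rwa [code_str, code_str] at this
  funext k
  unfold th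
  rw [h1]
  congr 1
  funext q
  rw [encard_iso e he]

theorem at_case (h1 : S_SM) (h2 : S_CC) (h4 : S_AT2) (h5 : S_AT3) (h6 : S_MEA) (h7 : S_SW)
    (hc : Countable L.Symbols) (hbin : ∀ n, 3 ≤ n → IsEmpty (L.Relations n)) (T : L.Theory)
    (hfin : ∀ S : L.Structure ℕ, Mods S T → ∀ R, FinInd S R)
    (hno : ∀ S : L.Structure ℕ, Mods S T →
      ¬ ∃ x : ℕ → ℕ, (∀ i, NonIso S (x i)) ∧ ∀ i j, i ≠ j → ¬ TwA S (x i) (x j)) : Dich T := by
  classical
  have := countable_sym hc
  have := countable_index hc
  choose θ hθm hθi hθe using h5 L hc inferInstance hbin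
  have hg : ∀ n : ℕ, ∃ g : ℕ → ℕ ⊕ (Fin n × ℕ), Function.Surjective g := fun n =>
    exists_surjective_nat _
  choose g hgs using hg
  by_cases hcount : ∀ n, (th (θ n) (g n) '' B T n).Countable
  · left
    have hcc : Countable (Σ n : ℕ, ↥(th (θ n) (g n) '' B T n)) := by
      have := fun n => (hcount n).to_subtype
      infer_instance
    let F : Option (Σ n : ℕ, ↥(th (θ n) (g n) '' B T n)) → L.Structure ℕ := fun o =>
      o.elim (str fun _ => false) (fun v => str (Classical.choose v.2.2).1)
    obtain ⟨f, hf⟩ := exists_surjective_nat (Option (Σ n : ℕ, ↥(th (θ n) (g n) '' B T n)))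
    refine ⟨fun k => F (f k), ?_⟩
    intro S hS
    obtain ⟨n, a, ha1, ha2⟩ := reps h7 S (hno S hS)
    have hmem : (code S, a) ∈ B T n := by
      refine ⟨?_, ?_, ?_⟩
      · rw [str_code]
        exact hS
      · rw [str_code]
        exact ha1
      · rw [str_code]
        exact ha2
    obtain ⟨k, hk⟩ := hf (some ⟨n, ⟨_, (code S, a), hmem, rfl⟩⟩)
    refine ⟨k, ?_⟩
    simp only [hk, F, Option.elim_some]
    have hv : ∃ p, p ∈ B T n ∧ th (θ n) (g n) p = th (θ n) (g n) (code S, a) :=
      ⟨(code S, a), hmem, rfl⟩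
    change Isom S (str (Classical.choose hv).1)
    obtain ⟨hp1, hp2⟩ := Classical.choose_spec hv
    set p := Classical.choose hv with hp
    obtain ⟨h8, h9⟩ := th_eq (hgs n) hp2
    have h10 := hθe n S (str p.1) a p.2 (hfin S hS) (hfin _ hp1.1) (by
      rw [code_str]
      exact h8.symm)
    refine h4 L hc inferInstance S (str p.1) (hfin S hS) (hfin _ hp1.1) n a p.2 ha1 hp1.2.1 ha2
      hp1.2.2 ?_ h10
    intro i
    have := h9 i
    simp only [str_code] at this
    exact this.symm
  · right
    push Not at hcount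
    obtain ⟨n, hn⟩ := hcount
    have : PolishSpace (Code L × (Fin n → ℕ)) :=
      { toSecondCountableTopology := inferInstance, toIsCompletelyMetrizableSpace := inferInstance }
    obtain ⟨h, hcont, hB, hinj⟩ := h1 (Code L × (Fin n → ℕ)) (B T n) (th (θ n) (g n))
      (measB h6 hc T n) (meas_th hc _ (hθm n) _) hn
    refine h2 L hc inferInstance T ℕ inferInstance inferInstance (fun x => str (h x).1)
      (fun x => (hB x).1) ?_ ?_
    · intro m R s
      have hcon : Continuous (fun x => (h x).1 ⟨m, R, s⟩) :=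
        (continuous_apply _).comp (continuous_fst.comp hcont)
      exact (isClopen_discrete ({true} : Set Bool)).preimage hcon
    · intro x
      have hch : ∀ y : {y | Isom (str (h y).1) (str (h x).1)}, ∃ e : ℕ ≃ ℕ,
          ∀ (n : ℕ) (R : L.Relations n) (s : Fin n → ℕ),
          (str (h y.1).1).RelMap R s ↔ (str (h x).1).RelMap R (fun i => e (s i)) := fun y => y.2
      choose e he using hch
      have hinj' : Function.Injective (fun (y : {y | Isom (str (h y).1) (str (h x).1)})
          (i : Fin n) => e y ((h y.1).2 i)) := by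
        intro y y' hyy
        apply Subtype.ext
        apply hinj
        change th (θ n) (g n) (h y.1) = th (θ n) (g n) (h y'.1)
        have e1 := th_inv (g n) (hθi n) (h y.1).1 (h x).1 (h y.1).2 (e y) (he y)
        have e2 := th_inv (g n) (hθi n) (h y'.1).1 (h x).1 (h y'.1).2 (e y') (he y')
        have e3 : (fun i => e y ((h y.1).2 i)) = fun i => e y' ((h y'.1).2 i) := hyy
        rw [e3, ← e2] at e1
        exact e1
      exact hinj'.countable

end main

/-- Part AT of project VP. -/
theorem at_main (h1 : S_SM) (h2 : S_CC) (h3 : S_AT1) (h4 : S_AT2) (h5 : S_AT3) (h6 : S_MEA)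
    (h7 : S_SW) : S_AT := by
  intro L hc hrel hbin T hfin
  have := hrel
  by_cases hex : ∃ S : L.Structure ℕ, Mods S T ∧
      ∃ x : ℕ → ℕ, (∀ i, NonIso S (x i)) ∧ ∀ i j, i ≠ j → ¬ TwA S (x i) (x j)
  · obtain ⟨S, hS, hx⟩ := hex
    exact Or.inr (h3 L hc hrel T S hS (hfin S hS) hx)
  · push Not at hex
    apply at_case h1 h2 h4 h5 h6 h7 hc hbin T hfin
    rintro S hS ⟨x, hx1, hx2⟩
    obtain ⟨i, j, hij, hT⟩ := hex S hS x hx1
    exact hx2 i j hij hT

end Pool.Agent.W756.VP.AT
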